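import Pool.Agent.L5helper98.CQ.Stmts
import Pool.Agent.H449R3.CHIJanson

/-!
Task Jan of the project CQ (MP_b09bc5_pr, helper98): Janson's inequality for cliques.
-/

set_option autoImplicit false

namespace Pool.Agent.L5helper18.CQ

open Finset Pool.Agent.L5helper98.CQ Pool.Agent.H452R3.CHI
open scoped Classical

/-- the weight of a set of coordinates in a sum -/
theorem pw_disjSum {A B : Type} [Fintype A] [Fintype B] (a : A → ℝ) (b : B → ℝ)
    (S : Finset A) (T : Finset B) :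
    pw (Sum.elim a b) (S.disjSum T) = pw a S * pw b T := by
  unfold pw
  rw [Fintype.prod_sum_type]
  congr 1
  · refine prod_congr rfl fun x _ => ?_
    simp
  · refine prod_congr rfl fun x _ => ?_
    simp

theorem sum_pw {B : Type} [Fintype B] (b : B → ℝ) : ∑ T : Finset B, pw b T = 1 := by
  have h := (Finset.prod_add b (fun x => 1 - b x) univ)
  rw [Finset.powerset_univ] at h
  have h1 : ∏ x : B, (b x + (1 - b x)) = 1 := by simp
  rw [h1] at h
  rw [h]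
  refine sum_congr rfl fun T _ => ?_
  unfold pw
  rw [prod_ite]
  congr 1
  · refine prod_congr ?_ fun _ _ => rfl
    ext x; simp
  · refine prod_congr ?_ fun _ _ => rfl
    ext x; simp

theorem pw_compl {n : ℕ} (p : ℝ) (ω : Om n) : pw (fun _ : Sym2 (Fin n) => 1 - p) ωᶜ = Wt p ω := by
  unfold pw Wt
  refine prod_congr rfl fun e _ => ?_
  by_cases h : e ∈ ω
  · simp [h]
  · simp [h]

/-- the probability is at most the probability with additional thinning -/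
theorem Pb_le_sum {n : ℕ} (p q : ℝ) (h0 : 0 ≤ p) (h1 : p ≤ 1) (q0 : 0 ≤ q) (q1 : q ≤ 1)
    (𝓡 : Finset (Finset (Fin n))) :
    Pb p (fun ω : Om n => ∀ K ∈ 𝓡, ¬ cl ω K) ≤
      ∑ T : Finset (Sym2 (Fin n) ⊕ {K // K ∈ 𝓡}),
        (if ∀ K : {K // K ∈ 𝓡}, ¬ Disjoint T ((ins K.1).disjSum {K}) then
          pw (Sum.elim (fun _ => 1 - p) (fun _ => 1 - q)) T else 0) := by
  rw [← (Finset.sumEquiv (α := Sym2 (Fin n)) (β := {K // K ∈ 𝓡})).symm.toEquiv.sum_comp,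
    Fintype.sum_prod_type]
  have e0 : Pb p (fun ω : Om n => ∀ K ∈ 𝓡, ¬ cl ω K) =
      ∑ ω : Om n, pw (fun _ : Sym2 (Fin n) => 1 - p) ωᶜ *
        (if ∀ K ∈ 𝓡, ¬ cl ω K then (1 : ℝ) else 0) := by
    unfold Pb Ex
    refine sum_congr rfl fun ω _ => ?_
    rw [pw_compl]
    congr 1
    by_cases h : ∀ K ∈ 𝓡, ¬ cl ω K
    · rw [if_pos h]
      exact if_pos h
    · rw [if_neg h]
      exact if_neg h
  rw [e0]
  have e2 : ∑ ω : Om n, pw (fun _ : Sym2 (Fin n) => 1 - p) ωᶜ *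
        (if ∀ K ∈ 𝓡, ¬ cl ω K then (1 : ℝ) else 0) =
      ∑ T : Finset (Sym2 (Fin n)), pw (fun _ : Sym2 (Fin n) => 1 - p) T *
        (if ∀ K ∈ 𝓡, ¬ cl Tᶜ K then (1 : ℝ) else 0) := by
    refine Fintype.sum_equiv ⟨compl, compl, compl_compl, compl_compl⟩ _ _ fun ω => ?_
    simp
  rw [e2]
  refine sum_le_sum fun T _ => ?_
  have hnn : ∀ T, 0 ≤ pw (fun _ : Sym2 (Fin n) => 1 - p) T :=
    Pool.Agent.H449R3.CHI.pw_nonneg (fun _ => by linarith) (fun _ => by linarith)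
  have hnn' : ∀ U, 0 ≤ pw (fun _ : {K // K ∈ 𝓡} => 1 - q) U :=
    Pool.Agent.H449R3.CHI.pw_nonneg (fun _ => by linarith) (fun _ => by linarith)
  by_cases h : ∀ K ∈ 𝓡, ¬ cl Tᶜ K
  · rw [if_pos h, mul_one]
    calc pw (fun _ : Sym2 (Fin n) => 1 - p) T
        = pw (fun _ : Sym2 (Fin n) => 1 - p) T *
            ∑ U : Finset {K // K ∈ 𝓡}, pw (fun _ : {K // K ∈ 𝓡} => 1 - q) U := by
          rw [sum_pw, mul_one]
      _ = ∑ U : Finset {K // K ∈ 𝓡}, pw (fun _ : Sym2 (Fin n) => 1 - p) T *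
            pw (fun _ : {K // K ∈ 𝓡} => 1 - q) U := by rw [mul_sum]
      _ ≤ _ := by
          refine sum_le_sum fun U _ => ?_
          have hc : ∀ K : {K // K ∈ 𝓡},
              ¬ Disjoint (T.disjSum U) ((ins K.1).disjSum {K}) := by
            intro K hd
            refine h K.1 K.2 ?_
            rw [cl_iff]
            intro e he
            rw [mem_compl]
            intro heT
            exact Finset.disjoint_left.1 hd (inl_mem_disjSum.2 heT) (inl_mem_disjSum.2 he)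
          have : ((Finset.sumEquiv (α := Sym2 (Fin n)) (β := {K // K ∈ 𝓡})).symm.toEquiv (T, U)) =
            T.disjSum U := rfl
          rw [this, if_pos hc, pw_disjSum]
  · rw [if_neg h, mul_zero]
    refine sum_nonneg fun U _ => ?_
    have : ((Finset.sumEquiv (α := Sym2 (Fin n)) (β := {K // K ∈ 𝓡})).symm.toEquiv (T, U)) =
            T.disjSum U := rfl
    rw [this]
    split_ifs
    · rw [pw_disjSum]
      exact mul_nonneg (hnn _) (hnn' _)
    · exact le_rfl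

/-- the number of sets of the family with a given size of the intersection with `K` -/
theorem card_inter_le {n : ℕ} (r j : ℕ) (hj : j ≤ r) (S : Finset (Fin n))
    (𝓡 : Finset (Finset (Fin n))) (h𝓡 : ∀ K ∈ 𝓡, K ⊆ S ∧ K.card = r) (K : Finset (Fin n))
    (hK : K.card = r) :
    (𝓡.filter fun K' => (K ∩ K').card = j).card ≤ r.choose j * S.card ^ (r - j) := by
  have h1 : (𝓡.filter fun K' => (K ∩ K').card = j).card ≤
      (powersetCard j K ×ˢ powersetCard (r - j) S).card := by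
    refine card_le_card_of_injOn (fun K' => (K ∩ K', K' \ K)) ?_ ?_
    · intro K' hK'
      have hK'' := mem_filter.1 (mem_coe.1 hK')
      obtain ⟨hs, hc⟩ := h𝓡 K' hK''.1
      refine mem_coe.2 (mem_product.2 ⟨mem_powersetCard.2 ⟨inter_subset_left, hK''.2⟩,
        mem_powersetCard.2 ⟨sdiff_subset.trans hs, ?_⟩⟩)
      have := card_sdiff_add_card_inter K' K
      rw [inter_comm, hK''.2, hc] at this
      show (K' \ K).card = r - j
      omega
    · intro K₁ _ K₂ _ h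
      have h2 : K ∩ K₁ = K ∩ K₂ := (Prod.ext_iff.1 h).1
      have h3 : K₁ \ K = K₂ \ K := (Prod.ext_iff.1 h).2
      ext x
      have h4 := Finset.ext_iff.1 h2 x
      have h5 := Finset.ext_iff.1 h3 x
      simp only [mem_inter, mem_sdiff] at h4 h5
      tauto
  refine h1.trans ?_
  rw [card_product, card_powersetCard, card_powersetCard, hK]
  exact Nat.mul_le_mul_left _ (Nat.choose_le_pow _ _)

/-- the product over the union of two coordinate sets -/
theorem prod_union {n : ℕ} (r : ℕ) (p q : ℝ) (𝓡 : Finset (Finset (Fin n)))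
    (h𝓡 : ∀ K ∈ 𝓡, K.card = r) (K K' : {K // K ∈ 𝓡}) (hne : K ≠ K')
    (hnd : ¬ Disjoint ((ins K.1).disjSum {K}) ((ins K'.1).disjSum {K'})) :
    (K.1 ∩ K'.1).card ∈ Icc 2 r ∧
    ∏ e ∈ (ins K.1).disjSum {K} ∪ (ins K'.1).disjSum {K'},
      (1 - Sum.elim (fun _ : Sym2 (Fin n) => 1 - p) (fun _ : {K // K ∈ 𝓡} => 1 - q) e) =
      q ^ 2 * (p ^ (r.choose 2) * p ^ (r.choose 2 - (K.1 ∩ K'.1).card.choose 2)) := by
  have hint : 2 ≤ (K.1 ∩ K'.1).card := by
    rw [Finset.not_disjoint_iff] at hnd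
    obtain ⟨e, he, he'⟩ := hnd
    rcases e with e | e
    · rw [inl_mem_disjSum] at he he'
      induction e using Sym2.inductionOn with
      | hf u v =>
        rw [mem_ins] at he he'
        have h3 : ({u, v} : Finset (Fin n)) ⊆ K.1 ∩ K'.1 := by
          intro x hx
          simp only [mem_insert, mem_singleton] at hx
          rcases hx with hx | hx <;> subst hx
          · exact mem_inter.2 ⟨he.1, he'.1⟩
          · exact mem_inter.2 ⟨he.2.1, he'.2.1⟩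
        have h4 := card_le_card h3
        rwa [card_pair he.2.2] at h4
    · rw [inr_mem_disjSum, mem_singleton] at he he'
      exact absurd (he.symm.trans he') hne
  have hint2 : (K.1 ∩ K'.1).card ≤ r := by
    rw [← h𝓡 K.1 K.2]
    exact card_le_card inter_subset_left
  refine ⟨mem_Icc.2 ⟨hint, hint2⟩, ?_⟩
  have hun : (ins K.1).disjSum {K} ∪ (ins K'.1).disjSum {K'} =
      (ins K.1 ∪ ins K'.1).disjSum {K, K'} := by
    ext e
    rcases e with e | e <;> simp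
  have hins : ins K.1 ∩ ins K'.1 = ins (K.1 ∩ K'.1) := by
    ext e
    induction e using Sym2.inductionOn with
    | hf u v =>
      simp only [mem_inter, mem_ins]
      tauto
  have hcard : (ins K.1 ∪ ins K'.1).card =
      r.choose 2 + (r.choose 2 - (K.1 ∩ K'.1).card.choose 2) := by
    have h5 := card_union_add_card_inter (ins K.1) (ins K'.1)
    rw [hins, card_ins, card_ins, card_ins, h𝓡 K.1 K.2, h𝓡 K'.1 K'.2] at h5
    have h6 := Nat.choose_le_choose 2 hint2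
    omega
  rw [hun, prod_disjSum]
  have h7 : ∏ x ∈ ({K, K'} : Finset {K // K ∈ 𝓡}),
      (1 - Sum.elim (fun _ : Sym2 (Fin n) => 1 - p) (fun _ : {K // K ∈ 𝓡} => 1 - q)
        (Sum.inr x)) = q ^ 2 := by
    rw [prod_pair hne]
    simp only [Sum.elim_inr]
    ring
  rw [h7]
  have h8 : ∏ x ∈ ins K.1 ∪ ins K'.1,
      (1 - Sum.elim (fun _ : Sym2 (Fin n) => 1 - p) (fun _ : {K // K ∈ 𝓡} => 1 - q)
        (Sum.inl x)) = p ^ (ins K.1 ∪ ins K'.1).card := by
    simp only [Sum.elim_inl, sub_sub_cancel, prod_const]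
  rw [h8, hcard, pow_add]
  ring

theorem prod_one {n : ℕ} (r : ℕ) (p q : ℝ) (𝓡 : Finset (Finset (Fin n)))
    (h𝓡 : ∀ K ∈ 𝓡, K.card = r) (K : {K // K ∈ 𝓡}) :
    ∏ e ∈ (ins K.1).disjSum {K},
      (1 - Sum.elim (fun _ : Sym2 (Fin n) => 1 - p) (fun _ : {K // K ∈ 𝓡} => 1 - q) e) =
      p ^ (r.choose 2) * q := by
  rw [prod_disjSum]
  simp only [Sum.elim_inl, Sum.elim_inr, sub_sub_cancel, prod_const, card_ins,
    h𝓡 K.1 K.2, card_singleton, pow_one]

/-- the sum over the pairs -/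
theorem sum_pairs {n : ℕ} (r : ℕ) (S : Finset (Fin n)) (𝓡 : Finset (Finset (Fin n)))
    (h𝓡 : ∀ K ∈ 𝓡, K ⊆ S ∧ K.card = r) (x : ℕ → ℝ) (hx : ∀ j, 0 ≤ x j) :
    ∑ K : {K // K ∈ 𝓡}, ∑ K' : {K // K ∈ 𝓡}, ∑ j ∈ Icc 2 r,
      (if (K.1 ∩ K'.1).card = j then x j else 0) ≤
      ∑ _K : {K // K ∈ 𝓡}, ∑ j ∈ Icc 2 r, (r.choose j : ℝ) * ((S.card : ℝ) ^ (r - j) * x j) := by
  refine sum_le_sum fun K _ => ?_
  rw [sum_comm]
  refine sum_le_sum fun j hj => ?_
  rw [mem_Icc] at hj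
  rw [← sum_filter, sum_const, nsmul_eq_mul, ← mul_assoc]
  refine mul_le_mul_of_nonneg_right ?_ (hx j)
  have h9 : (univ.filter fun K' : {K // K ∈ 𝓡} => (K.1 ∩ K'.1).card = j).card ≤
      (𝓡.filter fun K' => (K.1 ∩ K').card = j).card := by
    refine card_le_card_of_injOn Subtype.val ?_ Subtype.val_injective.injOn
    intro K' hK'
    exact mem_coe.2 (mem_filter.2 ⟨K'.2, (mem_filter.1 (mem_coe.1 hK')).2⟩)
  have h10 := h9.trans (card_inter_le r j hj.2 S 𝓡 h𝓡 K.1 (h𝓡 K.1 K.2).2)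
  exact_mod_cast h10

/-- Janson's inequality with bounds instead of the exact sums -/
theorem janson' {E ι : Type} [Fintype E] [DecidableEq E] [Fintype ι] (w : E → ℝ)
    (h0 : ∀ e, 0 ≤ w e) (h1 : ∀ e, w e ≤ 1) (F : ι → Finset E) (g : Finset E → ℝ)
    (hg : ∀ T, (∀ i, ¬ Disjoint T (F i)) → g T ≤ pw w T)
    (hg' : ∀ T, (¬ ∀ i, ¬ Disjoint T (F i)) → g T ≤ 0) (Λ Δ : ℝ)
    (hΛ : ∑ i, ∏ e ∈ F i, (1 - w e) = Λ) (x : ι → ι → ℝ) (hx : ∀ i j, 0 ≤ x i j)
    (hF : ∀ i j, i ≠ j → ¬ Disjoint (F i) (F j) → ∏ e ∈ F i ∪ F j, (1 - w e) ≤ x i j)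
    (hΔ : ∑ i, ∑ j, x i j ≤ Δ) :
    ∑ T, g T ≤ Real.exp (-Λ + 1 / 2 * Δ) := by
  have hJ := Pool.Agent.H449R3.CHI.taskJanson E w h0 h1 ι F
  refine le_trans (sum_le_sum fun T _ => ?_) (hJ.trans (Real.exp_le_exp.2 ?_))
  · split_ifs with h
    · exact hg T h
    · exact hg' T h
  · rw [hΛ]
    have h2 : ∀ y : ℝ, y ≤ Δ → -Λ + 1 / 2 * y ≤ -Λ + 1 / 2 * Δ := fun y hy => by linarith
    refine h2 _ (le_trans (sum_le_sum fun i _ => sum_le_sum fun j _ => ?_) hΔ)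
    split_ifs with h
    · refine le_trans (le_of_eq ?_) (hF i j h.1 h.2)
      congr 1
      ext e
      simp only [mem_union]
    · exact hx i j

/-- the numbers -/
theorem sum_bound (r s c : ℕ) (p Λ q μ : ℝ) (hp0 : 0 < p) (hΛ : 0 < Λ) (hμ0 : 0 < μ)
    (hμ : μ = c * p ^ (r.choose 2)) (hqμ : q * μ = Λ)
    (hj : ∀ j : ℕ, 2 ≤ j → j ≤ r → Λ * 2 ^ r * (s : ℝ) ^ (r - j) ≤ c * p ^ (j.choose 2)) :
    (c : ℝ) * ∑ j ∈ Icc 2 r, (r.choose j : ℝ) * ((s : ℝ) ^ (r - j) *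
      (q ^ 2 * (p ^ (r.choose 2) * p ^ (r.choose 2 - j.choose 2)))) ≤ Λ := by
  have hterm : ∀ j ∈ Icc 2 r, (r.choose j : ℝ) * ((s : ℝ) ^ (r - j) *
      (q ^ 2 * (p ^ (r.choose 2) * p ^ (r.choose 2 - j.choose 2)))) ≤
      (r.choose j : ℝ) * (q ^ 2 * (p ^ (r.choose 2) * (μ / (Λ * 2 ^ r)))) := by
    intro j hjr
    rw [mem_Icc] at hjr
    have h13 : (s : ℝ) ^ (r - j) * p ^ (r.choose 2 - j.choose 2) ≤ μ / (Λ * 2 ^ r) := by
      rw [le_div_iff₀ (by positivity)]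
      have h14 := hj j hjr.1 hjr.2
      have h15 : p ^ (r.choose 2) = p ^ (j.choose 2) * p ^ (r.choose 2 - j.choose 2) := by
        rw [← pow_add]
        congr 1
        have := Nat.choose_le_choose 2 hjr.2
        omega
      rw [hμ, h15]
      calc (s : ℝ) ^ (r - j) * p ^ (r.choose 2 - j.choose 2) * (Λ * 2 ^ r)
          = (Λ * 2 ^ r * (s : ℝ) ^ (r - j)) * p ^ (r.choose 2 - j.choose 2) := by ring
        _ ≤ (c * p ^ (j.choose 2)) * p ^ (r.choose 2 - j.choose 2) :=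
            mul_le_mul_of_nonneg_right h14 (by positivity)
        _ = _ := by ring
    calc (r.choose j : ℝ) * ((s : ℝ) ^ (r - j) *
          (q ^ 2 * (p ^ (r.choose 2) * p ^ (r.choose 2 - j.choose 2))))
        = (r.choose j : ℝ) * (q ^ 2 * (p ^ (r.choose 2) *
            ((s : ℝ) ^ (r - j) * p ^ (r.choose 2 - j.choose 2)))) := by ring
      _ ≤ _ := mul_le_mul_of_nonneg_left (mul_le_mul_of_nonneg_left
            (mul_le_mul_of_nonneg_left h13 (by positivity)) (by positivity)) (by positivity)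
  have hbin : (∑ j ∈ Icc 2 r, (r.choose j : ℝ)) ≤ 2 ^ r := by
    have h16 : ∑ j ∈ Icc 2 r, r.choose j ≤ ∑ j ∈ range (r + 1), r.choose j := by
      refine sum_le_sum_of_subset fun j hj' => ?_
      rw [mem_Icc] at hj'
      rw [mem_range]
      omega
    rw [Nat.sum_range_choose] at h16
    exact_mod_cast h16
  have hY : 0 ≤ q ^ 2 * (μ * (μ / (Λ * 2 ^ r))) := by positivity
  have hY2 : (c : ℝ) * (q ^ 2 * (p ^ (r.choose 2) * (μ / (Λ * 2 ^ r)))) =
      q ^ 2 * (μ * (μ / (Λ * 2 ^ r))) := by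
    have : q ^ 2 * (μ * (μ / (Λ * 2 ^ r))) =
      q ^ 2 * ((c * p ^ (r.choose 2)) * (μ / (Λ * 2 ^ r))) := by rw [← hμ]
    rw [this]
    ring
  calc (c : ℝ) * ∑ j ∈ Icc 2 r, (r.choose j : ℝ) * ((s : ℝ) ^ (r - j) *
        (q ^ 2 * (p ^ (r.choose 2) * p ^ (r.choose 2 - j.choose 2))))
      ≤ (c : ℝ) * ∑ j ∈ Icc 2 r,
        (r.choose j : ℝ) * (q ^ 2 * (p ^ (r.choose 2) * (μ / (Λ * 2 ^ r)))) :=
        mul_le_mul_of_nonneg_left (sum_le_sum hterm) (Nat.cast_nonneg _)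
    _ = (∑ j ∈ Icc 2 r, (r.choose j : ℝ)) *
          ((c : ℝ) * (q ^ 2 * (p ^ (r.choose 2) * (μ / (Λ * 2 ^ r))))) := by
        rw [← sum_mul]
        ring
    _ ≤ 2 ^ r * (q ^ 2 * (μ * (μ / (Λ * 2 ^ r)))) := by
        rw [hY2]
        exact mul_le_mul_of_nonneg_right hbin hY
    _ = (q * μ) ^ 2 / Λ := by
        field_simp
    _ = Λ := by
        rw [hqμ]
        field_simp

theorem taskJan : TaskJan := by
  intro n r p Λ S 𝓡 hp0 hp1 hr hΛ h𝓡 hj
  -- `μ` and `q`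
  obtain ⟨μ, hμ⟩ : ∃ μ : ℝ, μ = 𝓡.card * p ^ (r.choose 2) := ⟨_, rfl⟩
  have hΛμ : Λ ≤ μ := by
    have h1 := hj r hr le_rfl
    rw [Nat.sub_self, pow_zero, mul_one, ← hμ] at h1
    have h2 : (1 : ℝ) ≤ 2 ^ r := one_le_pow₀ (by norm_num)
    calc Λ = Λ * 1 := (mul_one _).symm
      _ ≤ Λ * 2 ^ r := mul_le_mul_of_nonneg_left h2 hΛ.le
      _ ≤ μ := h1
  have hμ0 : 0 < μ := lt_of_lt_of_le hΛ hΛμ
  obtain ⟨q, hq⟩ : ∃ q : ℝ, q = Λ / μ := ⟨_, rfl⟩
  have hq0 : 0 ≤ q := by rw [hq]; positivity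
  have hq1 : q ≤ 1 := by rw [hq]; exact (div_le_one hμ0).2 hΛμ
  have hqμ : q * μ = Λ := by rw [hq]; exact div_mul_cancel₀ _ hμ0.ne'
  have hc : ∀ K ∈ 𝓡, K.card = r := fun K hK => (h𝓡 K hK).2
  have hx : ∀ j : ℕ, 0 ≤ q ^ 2 * (p ^ (r.choose 2) * p ^ (r.choose 2 - j.choose 2)) := by
    intro j
    positivity
  refine (Pb_le_sum p q hp0.le hp1 hq0 hq1 𝓡).trans ?_
  refine (janson' (Sum.elim (fun _ : Sym2 (Fin n) => 1 - p) (fun _ : {K // K ∈ 𝓡} => 1 - q))
    ?_ ?_ (fun K : {K // K ∈ 𝓡} => (ins K.1).disjSum {K}) _ ?_ ?_ Λ Λ ?_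
    (fun K K' => ∑ j ∈ Icc 2 r, (if (K.1 ∩ K'.1).card = j then
      q ^ 2 * (p ^ (r.choose 2) * p ^ (r.choose 2 - j.choose 2)) else 0)) ?_ ?_ ?_).trans ?_
  · rintro (e | e)
    · simp only [Sum.elim_inl]; linarith
    · simp only [Sum.elim_inr]; linarith
  · rintro (e | e)
    · simp only [Sum.elim_inl]; linarith
    · simp only [Sum.elim_inr]; linarith
  · intro T hT
    rw [if_pos hT]
  · intro T hT
    rw [if_neg hT]
  · rw [sum_congr rfl fun K _ => prod_one r p q 𝓡 hc K, sum_const, card_univ, Fintype.card_coe,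
      nsmul_eq_mul, ← mul_assoc, ← hμ, mul_comm μ q, hqμ]
  · intro K K'
    refine sum_nonneg fun j _ => ?_
    split_ifs
    · exact hx j
    · exact le_rfl
  · intro K K' hne hnd
    obtain ⟨h1, h2⟩ := prod_union r p q 𝓡 hc K K' hne hnd
    rw [h2]
    have h3 := single_le_sum (f := fun j => if (K.1 ∩ K'.1).card = j then
      q ^ 2 * (p ^ (r.choose 2) * p ^ (r.choose 2 - j.choose 2)) else 0)
      (fun j _ => by
        show 0 ≤ ite _ _ _
        split_ifs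
        · exact hx j
        · exact le_rfl) h1
    refine le_trans (le_of_eq ?_) h3
    exact (if_pos rfl).symm
  · refine (sum_pairs r S 𝓡 h𝓡
      (fun j => q ^ 2 * (p ^ (r.choose 2) * p ^ (r.choose 2 - j.choose 2))) hx).trans ?_
    rw [sum_const, card_univ, Fintype.card_coe, nsmul_eq_mul]
    exact sum_bound r S.card 𝓡.card p Λ q μ hp0 hΛ hμ0 hμ hqμ hj
  · exact Real.exp_le_exp.2 (by linarith)

end Pool.Agent.L5helper18.CQ
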